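import Pool.Agent.N928.FG.Stm

/-!
# FG/HARM: the Green function of the free product, candidate (helper694)
-/

set_option autoImplicit false

namespace Pool.Agent.N694.FG.HARM

open Pool.Agent.N928.FG
open Pool.Agent.Helper125 Pool.Agent.Helper125.Gam Filter Topology

theorem t_HARM : S_GA → S_MULT → S_NU → S_MU → S_HARM := by
  intro hGA hMULT hNU hMU β hβ0 hβ1 u hu0 hu1
  obtain ⟨hG1, hG2, hG3, hG4⟩ := hGA β hβ0 hβ1 u hu0.le hu1
  obtain ⟨-, -, -, hP⟩ := hNU β hβ0 hβ1
  obtain ⟨G, hG⟩ : ∃ G, G = GG β u := ⟨_, rfl⟩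
  rw [← hG] at hG1 hG2 hG3
  have hGp : 0 < G := by linarith
  have hW : W β u = 2 * G - 1 := by rw [hG]; rfl
  have hZ : Z β u = u * (1 + 1 / (2 * G - 1)) := by
    unfold Z
    rw [hW]
  -- the multiplicative function
  obtain ⟨F, hF⟩ : ∃ F : A → ℝ, F = fun a => Gr β u a / G := ⟨_, rfl⟩
  have hFa : ∀ a, F a = Gr β u a / G := fun a => by rw [hF]
  have hF1 : F 1 = 1 := by rw [hFa, hG3]; exact div_self hGp.ne'
  have hF01 : ∀ a, 0 ≤ F a ∧ F a ≤ 1 := by
    intro a
    rw [hFa]
    exact ⟨div_nonneg (hG1 a).1 hGp.le, (div_le_one hGp).2 (hG1 a).2⟩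
  obtain ⟨Φ, hΦ1, hΦinc, hΦprod, -, hΦne⟩ := hMULT F hF1
  have hΦ01 : ∀ x, 0 ≤ Φ x ∧ Φ x ≤ 1 := by
    intro x
    rw [hΦprod]
    generalize red x = l
    induction l with
    | nil => simp
    | cons t l ih =>
      rw [List.map_cons, List.prod_cons]
      obtain ⟨h1, h2⟩ := hF01 t.2
      exact ⟨mul_nonneg h1 ih.1, mul_le_one₀ h2 ih.1 ih.2⟩
  -- the equation on the factor
  obtain ⟨E, hE⟩ : ∃ E : A → ℝ, ∀ a, E a = (mu β).sum (fun c t => t * F (c⁻¹ * a)) :=
    ⟨_, fun a => rfl⟩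
  have hEq : ∀ a, u * E a = F a - (if a = 1 then 1 else 0) / G := by
    intro a
    have h1 := hG4 a
    have h2 : (mu β).sum (fun c t => t * Gr β u (c⁻¹ * a)) = G * E a := by
      rw [hE, Finsupp.mul_sum]
      apply Finsupp.sum_congr
      intro c _
      rw [hFa]
      field_simp
    rw [h2] at h1
    rw [hFa, h1]
    field_simp
    ring
  have hE1 : u * E 1 = 1 - 1 / G := by
    rw [hEq, hF1, if_pos rfl]
  have hEne : ∀ a, a ≠ 1 → u * E a = F a := by
    intro a ha
    rw [hEq, if_neg ha, zero_div, sub_zero]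
  -- type `b` at an element `inc b a * y`
  have hinv : ∀ (b : Bool) (c : A), (inc b c)⁻¹ = (inc b c⁻¹ : Ga) := fun b c =>
    (map_inv (inc b) c).symm
  have sum1 : ∀ (b : Bool) (a : A) (y : Ga), (∀ c : A, Φ (inc b c * y) = F c * Φ y) →
      (mu β).sum (fun c t => t * (W β u * Φ ((inc b c)⁻¹ * (inc b a * y)))) =
        W β u * Φ y * E a := by
    intro b a y h
    rw [hE, Finsupp.mul_sum]
    apply Finsupp.sum_congr
    intro c _
    have h1 : (inc b c)⁻¹ * (inc b a * y) = inc b (c⁻¹ * a) * y := by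
      rw [hinv, ← mul_assoc, ← map_mul]
    rw [h1, h]
    ring
  have sum2 : ∀ (b : Bool) (x : Ga), (∀ c : A, Φ (inc b c * x) = F c * Φ x) →
      (mu β).sum (fun c t => t * (W β u * Φ ((inc b c)⁻¹ * x))) = W β u * Φ x * E 1 := by
    intro b x h
    rw [hE, Finsupp.mul_sum]
    apply Finsupp.sum_congr
    intro c _
    rw [hinv, h, mul_one]
    ring
  refine ⟨fun x => W β u * Φ x, fun x => ?_, ?_, fun x => ?_⟩
  · obtain ⟨h1, h2⟩ := hΦ01 x
    have hWp : 0 ≤ W β u := by rw [hW]; linarith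
    exact ⟨mul_nonneg hWp h1, mul_le_of_le_one_right hWp h2⟩
  · show W β u * Φ 1 = W β u
    rw [hΦ1, mul_one]
  · show W β u * Φ x = δ x + Z β u * P β (fun x => W β u * Φ x) x
    rw [hP]
    by_cases hx : x = 1
    · have h1 : ∀ b : Bool, (mu β).sum (fun c t => t * (W β u * Φ ((inc b c)⁻¹ * x))) =
          W β u * Φ x * E 1 := by
        intro b
        apply sum2
        intro c
        rw [hx, mul_one, hΦinc, hΦ1, mul_one]
      rw [h1 true, h1 false]
      have hδ : δ x = 1 := by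
        rw [hx]
        show Set.indicator ({1} : Set Ga) (fun _ => (1 : ℝ)) 1 = 1
        rw [Set.indicator_of_mem (Set.mem_singleton _)]
      rw [hδ, hx, hΦ1, hZ, hW]
      have h2G : 2 * G - 1 ≠ 0 := by linarith
      have h3 : u * (1 + 1 / (2 * G - 1)) * (1 / 2 * ((2 * G - 1) * 1 * E 1 + (2 * G - 1) * 1 * E 1)) =
          (1 + 1 / (2 * G - 1)) * (2 * G - 1) * (u * E 1) := by ring
      rw [h3, hE1]
      field_simp
      ring
    · obtain ⟨b, a, y, ha, hxy, h1, h2⟩ := hΦne x hx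
      have hδ : δ x = 0 := by
        show Set.indicator ({1} : Set Ga) (fun _ => (1 : ℝ)) x = 0
        rw [Set.indicator_of_notMem]
        simpa using hx
      have e1 : (mu β).sum (fun c t => t * (W β u * Φ ((inc b c)⁻¹ * x))) =
          W β u * Φ y * E a := by
        rw [hxy]
        exact sum1 b a y h1
      have e2 : (mu β).sum (fun c t => t * (W β u * Φ ((inc (!b) c)⁻¹ * x))) =
          W β u * Φ x * E 1 := sum2 (!b) x h2
      have hΦx : Φ x = F a * Φ y := by rw [hxy]; exact h1 a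
      have e3 : (mu β).sum (fun c t => t * (W β u * Φ ((inc true c)⁻¹ * x))) +
          (mu β).sum (fun c t => t * (W β u * Φ ((inc false c)⁻¹ * x))) =
          W β u * Φ y * E a + W β u * Φ x * E 1 := by
        cases b with
        | true =>
          rw [e1]
          have e2' : (mu β).sum (fun c t => t * (W β u * Φ ((inc false c)⁻¹ * x))) =
            W β u * Φ x * E 1 := e2
          rw [e2']
        | false =>
          have e2' : (mu β).sum (fun c t => t * (W β u * Φ ((inc true c)⁻¹ * x))) =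
            W β u * Φ x * E 1 := e2
          rw [e1, e2', add_comm]
      rw [e3, hδ, zero_add, hZ, hW]
      have h2G : 2 * G - 1 ≠ 0 := by linarith
      have h3 : u * (1 + 1 / (2 * G - 1)) * (1 / 2 * ((2 * G - 1) * Φ y * E a +
          (2 * G - 1) * Φ x * E 1)) =
          (1 + 1 / (2 * G - 1)) * (2 * G - 1) / 2 * (Φ y * (u * E a) + Φ x * (u * E 1)) := by ring
      rw [h3, hE1, hEne a ha]
      have h4 : Φ y * F a = Φ x := by rw [hΦx]; ring
      rw [h4]
      field_simp
      ring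

end Pool.Agent.N694.FG.HARM
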